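import Pool.Agent.Helper78.JT.Goals2
import Pool.Agent.Helper8.DT.NPRCPW

/-!
# Packet JT-PJ6 (MP_34c247_lc): the side conditions on the parameters
-/

namespace Pool.Agent.Helper58.JT

open _root_.Pool.Agent.Helper78.DT _root_.Pool.Agent.Helper78.JT

theorem pow_bound {x : ℝ} {h k m : ℕ} (hx : 0 ≤ x) (hxh : x ≤ 1 / 2 ^ h) (hm : m ≤ h * k) :
    x ^ k ≤ 1 / 2 ^ m := by
  calc x ^ k ≤ (1 / 2 ^ h) ^ k := pow_le_pow_left₀ hx hxh k
    _ = 1 / 2 ^ (h * k) := by rw [div_pow, one_pow, ← pow_mul]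
    _ ≤ 1 / 2 ^ m := by
        apply one_div_le_one_div_of_le (by positivity)
        exact pow_le_pow_right₀ (by norm_num) hm

theorem last_bound {a t : ℕ} {s κ η : ℝ} (ha : 1 ≤ a) (hη : η = 1 / 2 ^ (a - 1))
    (hκ : κ = 2 ^ t / 2 ^ (t * 2 ^ (a - 1))) (hs : s = 2 ^ (t * (a + 1))) :
    (2 / η) ^ t ≤ s * (κ / 2 ^ t) ^ η := by
  subst hη hκ hs
  have e1 : (2 : ℝ) / (1 / 2 ^ (a - 1)) = 2 ^ a := by
    obtain ⟨b, rfl⟩ : ∃ b, a = b + 1 := ⟨a - 1, by omega⟩
    rw [Nat.add_sub_cancel]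
    field_simp
    ring
  have e2 : (2 : ℝ) ^ t / 2 ^ (t * 2 ^ (a - 1)) / 2 ^ t = ((2 : ℝ) ^ t)⁻¹ ^ (2 ^ (a - 1)) := by
    rw [inv_pow, ← pow_mul]
    field_simp
  have e3 : ((2 : ℝ) ^ t / 2 ^ (t * 2 ^ (a - 1)) / 2 ^ t) ^ ((1 : ℝ) / 2 ^ (a - 1)) =
      ((2 : ℝ) ^ t)⁻¹ := by
    rw [e2]
    have hH : (0 : ℝ) < (2 : ℝ) ^ (a - 1) := by positivity
    have hx : (0 : ℝ) ≤ ((2 : ℝ) ^ t)⁻¹ := by positivity
    have e4 : (1 : ℝ) / 2 ^ (a - 1) = (((2 ^ (a - 1) : ℕ) : ℝ))⁻¹ := by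
      push_cast
      rw [one_div]
    rw [e4]
    exact Real.pow_rpow_inv_natCast hx (by positivity)
  rw [e1, e3]
  have e5 : ((2 : ℝ) ^ a) ^ t * 2 ^ t = 2 ^ (t * (a + 1)) := by
    rw [← pow_mul, ← pow_add]
    congr 1
    ring
  rw [← e5]
  have : (2 : ℝ) ^ t ≠ 0 := by positivity
  rw [mul_assoc, mul_inv_cancel₀ this, mul_one]

/-- **PJ6.** -/
theorem pj6 (hT : TljStmt) (h4 : Pj4Stmt) : Pj6Stmt := by
  intro c a e β ha
  obtain ⟨hT1, hT2, -⟩ := hT a e
  obtain ⟨L1, hL1⟩ := h4 c a e β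
  obtain ⟨L2, hL2⟩ := hT2 (37 + 2 * (2 * c + 8) * bb a e)
  refine ⟨1 + L1 + L2, fun L hL => ?_⟩
  have h1 : 1 ≤ L := by omega
  obtain ⟨hK0, hK2, -⟩ := hL1 L (by omega)
  obtain ⟨ht1, ht2, hUL, -⟩ := hT1 L h1
  have htM := hL2 L (by omega)
  have npr := _root_.Pool.Agent.Helper8.DT.npr
  have hPP : (Pj c L).Prime ∧ L ^ (c + 8) ≤ Pj c L ∧ Pj c L ≤ 2 * L ^ (c + 8) :=
    npr (L ^ (c + 8)) (pow_pos h1 _)
  have hRR : ∀ j, (Rj a e L j).Prime ∧ 2 ^ (Uj a e L ^ (j + 1)) ≤ Rj a e L j ∧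
      Rj a e L j ≤ 2 * 2 ^ (Uj a e L ^ (j + 1)) := fun j => npr _ (by positivity)
  have hq0 : 0 < qj c L := Nat.mul_pos (by norm_num) (pow_pos h1 _)
  -- the unit
  have hU : 36 + 2 * (2 * c + 8) * bb a e * (tj a e L + 1) ≤ Uj a e L := by
    have g1 : 2 ^ (tj a e L * 2) ≤ Uj a e L := by
      unfold Uj
      refine Nat.pow_le_pow_right (by norm_num) ?_
      have : 2 ≤ (e + 1) * (a + 5) := by nlinarith
      rw [mul_comm]
      exact Nat.mul_le_mul_right _ this
    refine le_trans ?_ g1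
    have g2 : tj a e L + 1 ≤ 2 ^ tj a e L := Nat.lt_two_pow_self
    rw [pow_mul, pow_two]
    generalize tj a e L = t at *
    generalize bb a e = b at *
    calc 36 + 2 * (2 * c + 8) * b * (t + 1) ≤ (37 + 2 * (2 * c + 8) * b) * (t + 1) := by nlinarith
      _ ≤ 2 ^ t * 2 ^ t := Nat.mul_le_mul (by omega) g2
  have hU2 : 2 ≤ Uj a e L := by omega
  have hUe : 2 ∣ Uj a e L := by
    unfold Uj
    refine dvd_pow_self 2 ?_
    have : 0 < tj a e L := by omega
    positivity
  have hUpow : ∀ i j, i ≤ j → Uj a e L ^ i ≤ Uj a e L ^ j := fun i j hij =>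
    Nat.pow_le_pow_right (by omega) hij
  have hUL' : ∀ i, i ≤ e + 2 → Uj a e L ^ i ≤ L := fun i hi => (hUpow _ _ hi).trans hUL
  have hLb : ∀ n, L ^ n ≤ 2 ^ (n * (bb a e * (tj a e L + 1))) := by
    intro n
    rw [mul_comm, pow_mul]
    exact Nat.pow_le_pow_left ht2.le n
  have hq : qj c L ≤ 2 ^ (Uj a e L ^ (0 + 1)) := by
    unfold qj
    calc 2 ^ 18 * L ^ (2 * c + 8) ≤ 2 ^ 18 * 2 ^ ((2 * c + 8) * (bb a e * (tj a e L + 1))) :=
          Nat.mul_le_mul_left _ (hLb _)
      _ = 2 ^ (18 + (2 * c + 8) * (bb a e * (tj a e L + 1))) := by rw [pow_add]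
      _ ≤ 2 ^ (Uj a e L ^ (0 + 1)) := by
          refine Nat.pow_le_pow_right (by norm_num) ?_
          rw [zero_add, pow_one]
          refine le_trans ?_ hU
          nlinarith [Nat.zero_le ((2 * c + 8) * (bb a e * (tj a e L + 1)))]
  have hLr : (1 : ℝ) ≤ (L : ℝ) := by exact_mod_cast h1
  have hL0 : (0 : ℝ) < (L : ℝ) := by linarith
  have hδ : 0 < δj c L := by
    unfold δj
    positivity
  have hη0 : 0 < ηp a := by
    unfold ηp
    positivity
  have hη1 : ηp a ≤ 1 := by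
    unfold ηp
    rw [div_le_one (by positivity)]
    exact one_le_pow₀ (by norm_num)
  have hκ : 0 < κj a e L := by
    unfold κj
    positivity
  have hlast : (2 / ηp a) ^ tj a e L ≤ sj a e L * (κj a e L / 2 ^ tj a e L) ^ ηp a :=
    last_bound ha rfl rfl (by unfold sj; push_cast; rfl)
  have hk : ∀ j, (kj a e L j : ℝ) ^ 2 ≤ 4 * (L : ℝ) ^ 2 := by
    intro j
    have g1 : kj a e L j ≤ 2 * L := by
      unfold kj
      exact Nat.mul_le_mul_left _ (hUL' _ (by omega))
    have g2 : (kj a e L j : ℝ) ≤ 2 * L := by exact_mod_cast g1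
    have g3 : (0 : ℝ) ≤ (kj a e L j : ℝ) := Nat.cast_nonneg _
    nlinarith
  refine ⟨hPP.1, ?_, hq0, hδ, ?_, ?_, hη0, hη1, hκ, hlast⟩
  · refine hK2.trans (le_trans ?_ hPP.2.1)
    exact Nat.pow_le_pow_right h1 (by omega)
  · unfold εj
    positivity
  · intro j hj
    refine ⟨(hRR j).1, ?_, ?_, ?_⟩
    · cases j with
      | zero => exact hq.trans (hRR 0).2.1
      | succ i =>
        refine ((hRR i).2.2.trans ?_).trans (hRR (i + 1)).2.1
        have g1 : 1 ≤ Uj a e L ^ (i + 1) := Nat.one_le_pow _ _ (by omega)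
        have g2 : Uj a e L ^ (i + 1 + 1) = Uj a e L ^ (i + 1) * Uj a e L := pow_succ _ _
        calc 2 * 2 ^ (Uj a e L ^ (i + 1)) = 2 ^ (Uj a e L ^ (i + 1) + 1) := (pow_succ' 2 _).symm
          _ ≤ 2 ^ (Uj a e L ^ (i + 1 + 1)) := by
              refine Nat.pow_le_pow_right (by norm_num) ?_
              rw [g2]
              nlinarith
    · unfold kj dj
      apply le_of_eq
      ring
    · unfold εj
      cases j with
      | zero =>
        refine pow_bound (h := 1) (by positivity) ?_ ?_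
        · rw [div_le_div_iff₀ (by unfold Mj; have := Nat.cast_pos (α := ℝ).2 hq0; positivity)
            (by positivity)]
          have g1 : (Mj c a e L 0 : ℝ) * δj c L ^ 2 = 64 * (L : ℝ) ^ 2 := by
            unfold Mj qj δj
            push_cast
            field_simp
            ring
          rw [g1]
          nlinarith [hk 0]
        · unfold kj
          rw [Nat.sub_zero]
          omega
      | succ i =>
        obtain ⟨u, hu⟩ := hUe
        have hh : Uj a e L ^ (i + 1) = 2 * (Uj a e L ^ i * u) := by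
          rw [pow_succ]
          nth_rewrite 2 [hu]
          ring
        have hu1 : 14 + (2 * c + 8) * (bb a e * (tj a e L + 1)) ≤ Uj a e L ^ i * u := by
          have g1 : 1 ≤ Uj a e L ^ i := Nat.one_le_pow _ _ (by omega)
          have g2 : 36 + 2 * (2 * c + 8) * bb a e * (tj a e L + 1) =
            36 + 2 * ((2 * c + 8) * (bb a e * (tj a e L + 1))) := by ring
          have g3 : 14 + (2 * c + 8) * (bb a e * (tj a e L + 1)) ≤ u := by omega
          calc _ ≤ 1 * u := by omega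
            _ ≤ Uj a e L ^ i * u := Nat.mul_le_mul_right _ g1
        have hR : (2 : ℝ) ^ (Uj a e L ^ (i + 1)) ≤ (Mj c a e L (i + 1) : ℝ) := by
          have := (hRR i).2.1
          unfold Mj
          exact_mod_cast this
        have hR0 : (0 : ℝ) < (Mj c a e L (i + 1) : ℝ) := lt_of_lt_of_le (by positivity) hR
        refine pow_bound (h := Uj a e L ^ i * u) (by positivity) ?_ ?_
        · rw [div_le_div_iff₀ (by positivity) (by positivity), one_mul]
          have g1 : (2 : ℝ) ^ 14 * (L : ℝ) ^ (2 * c + 8) ≤ 2 ^ (Uj a e L ^ i * u) := by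
            have g2 : 2 ^ 14 * L ^ (2 * c + 8) ≤ 2 ^ (Uj a e L ^ i * u) := by
              calc 2 ^ 14 * L ^ (2 * c + 8) ≤
                  2 ^ 14 * 2 ^ ((2 * c + 8) * (bb a e * (tj a e L + 1))) :=
                    Nat.mul_le_mul_left _ (hLb _)
                _ = 2 ^ (14 + (2 * c + 8) * (bb a e * (tj a e L + 1))) := by rw [pow_add]
                _ ≤ _ := Nat.pow_le_pow_right (by norm_num) hu1
            exact_mod_cast g2
          have g3 : (2 : ℝ) ^ (Uj a e L ^ (i + 1)) =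
              2 ^ (Uj a e L ^ i * u) * 2 ^ (Uj a e L ^ i * u) := by
            rw [hh, ← pow_add]
            congr 1
            ring
          have g4 : δj c L ^ 2 * (2 ^ 14 * (L : ℝ) ^ (2 * c + 8)) = 4 * (L : ℝ) ^ 2 := by
            unfold δj
            field_simp
            ring
          generalize (2 : ℝ) ^ (Uj a e L ^ i * u) = Y at *
          have hY : 0 ≤ Y := le_trans (by positivity) g1
          calc (kj a e L (i + 1) : ℝ) ^ 2 * Y ≤ 4 * (L : ℝ) ^ 2 * Y :=
                mul_le_mul_of_nonneg_right (hk _) hY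
            _ = δj c L ^ 2 * (2 ^ 14 * (L : ℝ) ^ (2 * c + 8)) * Y := by rw [g4]
            _ ≤ δj c L ^ 2 * Y * Y := by
                refine mul_le_mul_of_nonneg_right ?_ hY
                exact mul_le_mul_of_nonneg_left g1 (by positivity)
            _ = (Y * Y) * δj c L ^ 2 := by ring
            _ ≤ (Mj c a e L (i + 1) : ℝ) * δj c L ^ 2 := by
                refine mul_le_mul_of_nonneg_right ?_ (by positivity)
                rw [← g3]
                exact hR
        · unfold kj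
          have g1 : Uj a e L ^ (e + 1) = Uj a e L ^ (i + 1) * Uj a e L ^ (e + 1 - (i + 1)) := by
            rw [← pow_add]
            congr 1
            omega
          rw [g1, hh]
          apply le_of_eq
          ring

end Pool.Agent.Helper58.JT
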